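import Pool.Agent.Run7.h275.S.I0

/-!
# FFD (helper889): the function field of a scheme with a chart `Spec B`
-/

set_option autoImplicit false

open AlgebraicGeometry CategoryTheory CategoryTheory.Limits TopologicalSpace

namespace Run7.h889.SC

open Pool.Agent.Run7.h275.SC

lemma isFractionRing_of_Fr {F : Type} [Field F] (B : Subring F) (h : Fr B) :
    IsFractionRing B F := by
  refine IsFractionRing.of_field B F fun z => ?_
  obtain ⟨a, ha, b, hb, -, hz⟩ := h z
  exact ⟨⟨a, ha⟩, ⟨b, hb⟩, hz⟩

theorem ff_aux (R : CommRingCat.{0}) [IsDomain R] (F : Type) [Field F] [Algebra R F]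
    [IsFractionRing R F] : Nonempty ((Spec R).functionField ≃+* F) :=
  ⟨(IsLocalization.algEquiv (nonZeroDivisors R) (Spec R).functionField F).toRingEquiv⟩

theorem ff_Sp (F : Type) [Field F] (B : Subring F) [IsFractionRing B F] [IsIntegral (Sp B)] :
    Nonempty ((Sp B).functionField ≃+* F) := by
  let _ : Algebra (CommRingCat.of B) F := inferInstanceAs (Algebra B F)
  have : IsDomain (CommRingCat.of B) := inferInstanceAs (IsDomain B)
  have : IsFractionRing (CommRingCat.of B) F := inferInstanceAs (IsFractionRing B F)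
  exact ff_aux (CommRingCat.of B) F

theorem t_FFD : S_FFD := by
  intro F _ B Y _ ι hB hι
  have : IsFractionRing B F := isFractionRing_of_Fr B hB
  have h1 : ι (genericPoint (Sp B)) = genericPoint Y := genericPoint_eq_of_isOpenImmersion ι
  obtain ⟨e1⟩ := ff_Sp F B
  have e2 : Y.presheaf.stalk (ι (genericPoint (Sp B))) ≃+* (Sp B).functionField :=
    (asIso (ι.stalkMap (genericPoint (Sp B)))).commRingCatIsoToRingEquiv
  have e3 : Y.functionField ≃+* Y.presheaf.stalk (ι (genericPoint (Sp B))) := by
    rw [h1]
  exact ⟨e3.trans (e2.trans e1)⟩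

end Run7.h889.SC
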