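import Pool.Agent.Run7.h275.S.I0

/-!
# SEC (helper889): a section over an open set which is an open immersion into an integral scheme
-/

set_option autoImplicit false

open AlgebraicGeometry CategoryTheory CategoryTheory.Limits TopologicalSpace

namespace Run7.h889.SC

open Pool.Agent.Run7.h275.SC

theorem t_SEC : S_SEC := by
  intro X Y W π j s hY hπ hW hj hs hsj
  set U := j.opensRange with hU
  let e : W ≅ (U : Scheme) := j.isoOpensRange
  have he : e.inv ≫ j = U.ι := by simp [e, U]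
  have hs' : (e.inv ≫ s) ≫ π = U.ι := by rw [Category.assoc, hsj, he]
  have pb := isPullback_morphismRestrict π U
  let σ : (U : Scheme) ⟶ (π ⁻¹ᵁ U : Scheme) := pb.lift (𝟙 _) (e.inv ≫ s)
    (by rw [Category.id_comp, hs'])
  have h1 : σ ≫ (π ⁻¹ᵁ U).ι = e.inv ≫ s := pb.lift_snd _ _ _
  have h2 : σ ≫ (π ∣_ U) = 𝟙 _ := pb.lift_fst _ _ _
  have : IsClosedImmersion (σ ≫ (π ∣_ U)) := by rw [h2]; infer_instance
  have : IsClosedImmersion σ := IsClosedImmersion.of_comp σ (π ∣_ U)
  have : IsOpenImmersion (σ ≫ (π ⁻¹ᵁ U).ι) := by rw [h1]; infer_instance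
  have : IsOpenImmersion σ := IsOpenImmersion.of_comp σ (π ⁻¹ᵁ U).ι
  have hUne : Nonempty (U : Scheme) := hW.map e.hom
  have hne : Nonempty (π ⁻¹ᵁ U : Scheme) := hUne.map σ
  have : IsIntegral (π ⁻¹ᵁ U : Scheme) := isIntegral_of_isOpenImmersion (π ⁻¹ᵁ U).ι
  have hclopen : IsClopen (Set.range σ) :=
    ⟨σ.isClosedEmbedding.isClosed_range, σ.isOpenEmbedding.isOpen_range⟩
  have huniv : Set.range σ = Set.univ :=
    hclopen.eq_univ (Set.range_nonempty _)
  have : Epi σ.base := by
    rw [TopCat.epi_iff_surjective]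
    exact Set.range_eq_univ.1 huniv
  have : IsIso σ := IsOpenImmersion.isIso σ
  have h3 : (π ∣_ U) = inv σ := by
    rw [← cancel_epi σ, h2, IsIso.hom_inv_id]
  rw [h3]
  infer_instance

end Run7.h889.SC
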